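import Pool.Agent.Helper11.Gon.Defs

set_option autoImplicit false

/-!
# Trilinear forms on `k(t)^*`: from finite `k` to `k` algebraic over `F_p`
-/

noncomputable section

open scoped Classical
open Polynomial nonZeroDivisors

namespace Helper11.Gon

universe u v w

section
variable {k : Type u} [Field k] (p : ℕ) [hp : Fact p.Prime] [CharP k p]

/-- The subfield of `k` of the elements `x` with `x ^ p ^ m = x`. -/
def fixK (m : ℕ) : Subfield k := (iterateFrobenius k p m).eqLocusField (RingHom.id k)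

lemma mem_fixK (m : ℕ) (x : k) : x ∈ fixK p m ↔ x ^ p ^ m = x := by
  change iterateFrobenius k p m x = RingHom.id k x ↔ _
  rw [iterateFrobenius_def, RingHom.id_apply]

lemma fixK_mono {m n : ℕ} (h : m ∣ n) : fixK (k := k) p m ≤ fixK p n := by
  intro x hx
  rw [mem_fixK] at hx ⊢
  obtain ⟨c, rfl⟩ := h
  induction c with
  | zero => simp
  | succ c ih => rw [mul_add, mul_one, pow_add, pow_mul, ih, hx]

lemma finite_fixK {m : ℕ} (hm : m ≠ 0) : Finite (fixK (k := k) p m) := by
  have h1 : 1 < p ^ m := Nat.one_lt_pow hm hp.out.one_lt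
  have h2 : (X ^ p ^ m - X : k[X]) ≠ 0 := FiniteField.X_pow_card_sub_X_ne_zero k h1
  refine Set.Finite.subset ((X ^ p ^ m - X : k[X]).roots.toFinset.finite_toSet) ?_
  intro x hx
  have hx' : x ^ p ^ m = x := (mem_fixK p m x).1 hx
  simp [h2, hx']

/-- The inclusion `k₀(t) → k(t)`. -/
def incl (K : Subfield k) : RatFunc K →+* RatFunc k :=
  RatFunc.mapRingHom (Polynomial.mapRingHom K.subtype)
    (nonZeroDivisors_le_comap_nonZeroDivisors_of_injective _
      (Polynomial.map_injective _ K.subtype.injective))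

lemma incl_algebraMap (K : Subfield k) (f : K[X]) :
    incl K (algebraMap K[X] (RatFunc K) f) = algebraMap k[X] (RatFunc k) (f.map K.subtype) := by
  have h := RatFunc.map_apply_div (Polynomial.mapRingHom K.subtype)
    (nonZeroDivisors_le_comap_nonZeroDivisors_of_injective _
      (Polynomial.map_injective _ K.subtype.injective)) f 1
  simp only [map_one, div_one] at h
  exact h

lemma exists_fix (halg : ∀ x : k, ∃ m : ℕ, m ≠ 0 ∧ x ^ p ^ m = x) (s : Finset k) :
    ∃ m : ℕ, m ≠ 0 ∧ ∀ x ∈ s, x ∈ fixK p m := by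
  induction s using Finset.induction_on with
  | empty => exact ⟨1, one_ne_zero, by simp⟩
  | insert a s _ ih =>
    obtain ⟨m, hm, h⟩ := ih
    obtain ⟨n, hn, h2⟩ := halg a
    refine ⟨m * n, mul_ne_zero hm hn, fun x hx => ?_⟩
    rcases Finset.mem_insert.1 hx with rfl | hx
    · exact fixK_mono p (Dvd.intro_left m rfl) ((mem_fixK p n x).2 h2)
    · exact fixK_mono p (Dvd.intro n rfl) (h x hx)

lemma exists_lift (halg : ∀ x : k, ∃ m : ℕ, m ≠ 0 ∧ x ^ p ^ m = x) (x : RatFunc k) :
    ∃ m : ℕ, m ≠ 0 ∧ ∀ n, n ≠ 0 → m ∣ n → x ∈ (incl (fixK p n)).range := by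
  obtain ⟨m, hm, h⟩ := exists_fix p halg (x.num.coeffs ∪ x.denom.coeffs)
  refine ⟨m, hm, fun n hn hmn => ?_⟩
  have key : ∀ f : k[X], f.coeffs ⊆ x.num.coeffs ∪ x.denom.coeffs →
      algebraMap k[X] (RatFunc k) f ∈ (incl (fixK p n)).range := by
    intro f hf
    have h1 : f ∈ Polynomial.lifts (fixK p n).subtype := by
      rw [Polynomial.lifts_iff_coeff_lifts]
      intro i
      by_cases h0 : f.coeff i = 0
      · exact ⟨0, by rw [h0, map_zero]⟩
      · have h2 : f.coeff i ∈ f.coeffs := Polynomial.coeff_mem_coeffs h0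
        exact ⟨⟨f.coeff i, fixK_mono p hmn (h _ (hf h2))⟩, rfl⟩
    obtain ⟨g, hg⟩ := (Polynomial.mem_lifts f).1 h1
    exact ⟨algebraMap _ _ g, by rw [incl_algebraMap, hg]⟩
  obtain ⟨a, ha⟩ := key x.num Finset.subset_union_left
  obtain ⟨b, hb⟩ := key x.denom Finset.subset_union_right
  exact ⟨a / b, by rw [map_div₀, ha, hb, RatFunc.num_div_denom]⟩

end

/-- The map induced by a homomorphism of fields on the additively written groups of units. -/
def uMap {F : Type u} {L : Type v} [Field F] [Field L] (f : F →+* L) :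
    Additive Fˣ →+ Additive Lˣ :=
  MonoidHom.toAdditive (Units.map (f : F →* L))

lemma uMap_lg {F : Type u} {L : Type v} [Field F] [Field L] (f : F →+* L) (x : F) :
    uMap f (lg x) = lg (f x) := by
  by_cases h : x = 0
  · simp [lg, h]
  · have h' : f x ≠ 0 := by simpa using h
    rw [lg, lg, dif_neg h, dif_neg h']
    change Additive.ofMul _ = Additive.ofMul _
    congr 1
    ext
    simp

/-- The pullback of a trilinear form. -/
def pull {A : Type u} {B : Type v} {Q : Type w} [AddCommGroup A] [AddCommGroup B]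
    [AddCommGroup Q] (g : A →+ B) (T : B →+ B →+ B →+ Q) : A →+ A →+ A →+ Q :=
  AddMonoidHom.mk' (fun a => AddMonoidHom.mk' (fun b => (T (g a) (g b)).comp g)
    fun b c => by ext; simp) fun b c => by ext; simp

lemma pull_apply {A : Type u} {B : Type v} {Q : Type w} [AddCommGroup A] [AddCommGroup B]
    [AddCommGroup Q] (g : A →+ B) (T : B →+ B →+ B →+ Q) (a b c : A) :
    pull g T a b c = T (g a) (g b) (g c) := rfl

lemma exists_uMap {F : Type u} {L : Type v} [Field F] [Field L] (f : F →+* L)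
    (x : Additive Lˣ) (h : ((Additive.toMul x : Lˣ) : L) ∈ f.range) : ∃ y, uMap f y = x := by
  obtain ⟨y, hy⟩ := h
  have hy0 : y ≠ 0 := by
    rintro rfl
    rw [map_zero] at hy
    exact (Additive.toMul x : Lˣ).ne_zero hy.symm
  refine ⟨Additive.ofMul (Units.mk0 y hy0), ?_⟩
  change Additive.ofMul _ = x
  rw [← ofMul_toMul x]
  congr 1
  ext
  simpa using hy

/-- Vanishing of trilinear forms for finite constant fields implies vanishing for constant fields
algebraic over `F_p`. -/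
theorem tri_of_finite {k : Type u} [Field k] {p : ℕ} (hp : p.Prime) [CharP k p]
    (halg : ∀ x : k, ∃ m : ℕ, m ≠ 0 ∧ x ^ p ^ m = x)
    (hfin : ∀ (k0 : Type u) [Field k0] [Finite k0] (Q : Type w) [AddCommGroup Q] [Module ℚ Q]
      (T : Additive (RatFunc k0)ˣ →+ Additive (RatFunc k0)ˣ →+ Additive (RatFunc k0)ˣ →+ Q),
      (∀ u v w, T u v w = T u w v) →
      (∀ f : RatFunc k0, f ≠ 0 → 1 - f ≠ 0 → T (lg (1 - f)) (lg f) (lg f) = 0) →
      ∀ u v w, T u v w = 0)
    (Q : Type w) [AddCommGroup Q] [Module ℚ Q]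
    (T : Additive (RatFunc k)ˣ →+ Additive (RatFunc k)ˣ →+ Additive (RatFunc k)ˣ →+ Q)
    (hsym : ∀ u v w, T u v w = T u w v)
    (h : ∀ f : RatFunc k, f ≠ 0 → 1 - f ≠ 0 → T (lg (1 - f)) (lg f) (lg f) = 0)
    (u v w : Additive (RatFunc k)ˣ) : T u v w = 0 := by
  have : Fact p.Prime := ⟨hp⟩
  obtain ⟨a, ha, ha2⟩ := exists_lift p halg ((Additive.toMul u : (RatFunc k)ˣ) : RatFunc k)
  obtain ⟨b, hb, hb2⟩ := exists_lift p halg ((Additive.toMul v : (RatFunc k)ˣ) : RatFunc k)
  obtain ⟨c, hc, hc2⟩ := exists_lift p halg ((Additive.toMul w : (RatFunc k)ˣ) : RatFunc k)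
  have hn : a * b * c ≠ 0 := mul_ne_zero (mul_ne_zero ha hb) hc
  obtain ⟨u', rfl⟩ := exists_uMap _ u (ha2 (a * b * c) hn ⟨b * c, by ring⟩)
  obtain ⟨v', rfl⟩ := exists_uMap _ v (hb2 (a * b * c) hn ⟨a * c, by ring⟩)
  obtain ⟨w', rfl⟩ := exists_uMap _ w (hc2 (a * b * c) hn ⟨a * b, by ring⟩)
  have : Finite (fixK (k := k) p (a * b * c)) := finite_fixK p hn
  rw [← pull_apply]
  refine hfin (fixK (k := k) p (a * b * c)) Q _ (fun x y z => ?_) (fun f h0 h1 => ?_) u' v' w'
  · rw [pull_apply, pull_apply, hsym]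
  · rw [pull_apply, uMap_lg, uMap_lg, map_sub, map_one]
    refine h _ (by simpa using h0) ?_
    have h2 : incl (fixK p (a * b * c)) (1 - f) ≠ 0 := (_root_.map_ne_zero _).2 h1
    rwa [map_sub, map_one] at h2

end Helper11.Gon
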